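import Mathlib

set_option maxHeartbeats 4000000

namespace Pool.Agent.Results.MP_79d058_nt.ThreeRows

/-- `(a_1, …, a_m)`, `(b_1, …, b_n)` is an `(m, n)`-square table: the `a_i` are pairwise
distinct, the `b_j` are pairwise distinct, and every `a_i + b_j` is the square of an integer. -/
def IsTable {m n : ℕ} (a : Fin m → ℤ) (b : Fin n → ℤ) : Prop :=
  Function.Injective a ∧ Function.Injective b ∧ ∀ i j, ∃ r : ℤ, a i + b j = r ^ 2

lemma chain (k : ℕ) : ∃ R S T w : ℤ, Odd R ∧ Odd S ∧ Odd T ∧ Odd w ∧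
    S ^ 2 = R ^ 2 + 24 * 4 ^ k * w ^ 2 ∧ T ^ 2 = R ^ 2 + 48 * 4 ^ k * w ^ 2 := by
  induction k with
  | zero => exact ⟨1, 5, 7, 1, by decide, by decide, by decide, by decide, by norm_num, by norm_num⟩
  | succ k ih =>
    obtain ⟨R, S, T, w, hR, hS, hT, hw, h1, h2⟩ := ih
    refine ⟨R ^ 4 - 1152 * (4 ^ k) ^ 2 * w ^ 4, R ^ 4 + 48 * 4 ^ k * w ^ 2 * R ^ 2 + 1152 * (4 ^ k) ^ 2 * w ^ 4,
      R ^ 4 + 96 * 4 ^ k * w ^ 2 * R ^ 2 + 1152 * (4 ^ k) ^ 2 * w ^ 4, w * R * S * T, ?_, ?_, ?_, ?_, ?_, ?_⟩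
    · apply Odd.sub_even hR.pow
      exact ⟨576 * (4 ^ k) ^ 2 * w ^ 4, by ring⟩
    · have e1 : Even (48 * 4 ^ k * w ^ 2 * R ^ 2) := ⟨24 * 4 ^ k * w ^ 2 * R ^ 2, by ring⟩
      have e2 : Even (1152 * (4 ^ k) ^ 2 * w ^ 4) := ⟨576 * (4 ^ k) ^ 2 * w ^ 4, by ring⟩
      exact (hR.pow.add_even e1).add_even e2
    · have e1 : Even (96 * 4 ^ k * w ^ 2 * R ^ 2) := ⟨48 * 4 ^ k * w ^ 2 * R ^ 2, by ring⟩
      have e2 : Even (1152 * (4 ^ k) ^ 2 * w ^ 4) := ⟨576 * (4 ^ k) ^ 2 * w ^ 4, by ring⟩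
      exact (hR.pow.add_even e1).add_even e2
    · exact ((hw.mul hR).mul hS).mul hT
    · have : (w * R * S * T) ^ 2 = w ^ 2 * R ^ 2 * (S ^ 2) * (T ^ 2) := by ring
      rw [this, h1, h2, pow_succ]
      ring
    · have : (w * R * S * T) ^ 2 = w ^ 2 * R ^ 2 * (S ^ 2) * (T ^ 2) := by ring
      rw [this, h1, h2, pow_succ]
      ring

lemma distinct_aux {j k : ℕ} (h : j < k) {R w R' w' : ℤ} (hR' : Odd R') (hw : Odd w)
    (e : R ^ 2 * 4 ^ k * w' ^ 2 = R' ^ 2 * 4 ^ j * w ^ 2) : False := by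
  obtain ⟨d, rfl⟩ := Nat.exists_eq_add_of_lt h
  have h4 : (4:ℤ) ^ j ≠ 0 := by positivity
  have e2 : 4 ^ j * (R ^ 2 * 4 ^ (d + 1) * w' ^ 2) = 4 ^ j * (R' ^ 2 * w ^ 2) := by
    have : (4:ℤ) ^ (j + d + 1) = 4 ^ j * 4 ^ (d+1) := by rw [← pow_add]; ring_nf
    rw [this] at e
    linear_combination e
  have e3 := mul_left_cancel₀ h4 e2
  have ho : Odd (R' ^ 2 * w ^ 2) := hR'.pow.mul hw.pow
  rw [← e3] at ho
  have he : Even (R ^ 2 * 4 ^ (d + 1) * w' ^ 2) := ⟨2 * R ^ 2 * 4 ^ d * w' ^ 2, by rw [pow_succ]; ring⟩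
  exact (Int.not_even_iff_odd.2 ho) he

lemma exists_table (n : ℕ) : ∃ (a : Fin 3 → ℤ) (b : Fin n → ℤ), IsTable a b := by
  choose R S T w hR hS hT hw h1 h2 using chain
  have hw0 : ∀ k, w k ≠ 0 := fun k h => by
    have := hw k
    rw [h] at this
    exact absurd this (by decide)
  obtain ⟨M, hM⟩ : ∃ M : ℤ, M = ∏ k ∈ Finset.range n, (2 ^ k * w k) := ⟨_, rfl⟩
  have hM0 : M ≠ 0 := by
    rw [hM]
    apply Finset.prod_ne_zero_iff.2
    intro k _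
    exact mul_ne_zero (by positivity) (hw0 k)
  have hdiv : ∀ k : Fin n, ∃ N : ℤ, M = (2 ^ (k:ℕ) * w k) * N := by
    intro k
    have := Finset.dvd_prod_of_mem (fun k : ℕ => (2 ^ k * w k : ℤ)) (Finset.mem_range.2 k.2)
    rw [hM]
    exact this
  choose N hN using hdiv
  refine ⟨fun i => 24 * (i : ℕ) * M ^ 2, fun k => (R k * N k) ^ 2, ?_, ?_, ?_⟩
  · intro i j hij
    simp only at hij
    have hM2 : M ^ 2 ≠ 0 := pow_ne_zero _ hM0
    have := mul_right_cancel₀ hM2 hij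
    apply Fin.ext
    omega
  · have key : ∀ j k : Fin n, (R j * N j) ^ 2 = (R k * N k) ^ 2 →
        R j ^ 2 * 4 ^ (k:ℕ) * w k ^ 2 = R k ^ 2 * 4 ^ (j:ℕ) * w j ^ 2 := by
      intro j k e
      have hj := hN j
      have hk := hN k
      have h4 : ∀ m : ℕ, (4:ℤ) ^ m = (2 ^ m) ^ 2 := by
        intro m; rw [← pow_mul, mul_comm, pow_mul]; norm_num
      rw [h4, h4]
      have hM2 : M ^ 2 ≠ 0 := pow_ne_zero _ hM0
      apply mul_right_cancel₀ hM2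
      -- R_j² (2^k w_k)² M² with M = 2^j w_j N_j
      have a1 : R j ^ 2 * (2 ^ (k:ℕ)) ^ 2 * w k ^ 2 * M ^ 2 =
          (2 ^ (k:ℕ) * w k) ^ 2 * (2 ^ (j:ℕ) * w j) ^ 2 * (R j * N j) ^ 2 := by
        rw [hj]; ring
      have a2 : R k ^ 2 * (2 ^ (j:ℕ)) ^ 2 * w j ^ 2 * M ^ 2 =
          (2 ^ (k:ℕ) * w k) ^ 2 * (2 ^ (j:ℕ) * w j) ^ 2 * (R k * N k) ^ 2 := by
        rw [hk]; ring
      rw [a1, a2, e]
    intro j k e
    simp only at e
    rcases lt_trichotomy j k with h | h | h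
    · exact (distinct_aux (Fin.lt_def.1 h) (hR k) (hw j) (key j k e)).elim
    · exact h
    · exact (distinct_aux (Fin.lt_def.1 h) (hR j) (hw k) (key k j e.symm)).elim
  · intro i k
    have h4 : (4:ℤ) ^ (k:ℕ) = (2 ^ (k:ℕ)) ^ 2 := by
      rw [← pow_mul, mul_comm, pow_mul]; norm_num
    have hk := hN k
    have e1 := h1 k
    have e2 := h2 k
    rw [h4] at e1 e2
    fin_cases i
    · exact ⟨R k * N k, by simp⟩
    · refine ⟨S k * N k, ?_⟩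
      simp only []
      have : (S k * N k) ^ 2 = S k ^ 2 * N k ^ 2 := by ring
      rw [this, e1, hk]
      push_cast
      ring
    · refine ⟨T k * N k, ?_⟩
      simp only []
      have : (T k * N k) ^ 2 = T k ^ 2 * N k ^ 2 := by ring
      rw [this, e2, hk]
      push_cast
      ring

end Pool.Agent.Results.MP_79d058_nt.ThreeRows

open Pool.Agent.Results.MP_79d058_nt.ThreeRows in
/-- For every `n`, `(3, n)`-square tables and `(n, 3)`-square tables exist. -/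
theorem Pool.Agent.Results.MP_79d058_nt.ThreeRows.result (n : ℕ) :
    (∃ (a : Fin 3 → ℤ) (b : Fin n → ℤ), IsTable a b) ∧
      (∃ (a : Fin n → ℤ) (b : Fin 3 → ℤ), IsTable a b) := by
  obtain ⟨a, b, h1, h2, h3⟩ := exists_table n
  refine ⟨⟨a, b, h1, h2, h3⟩, ⟨b, a, h2, h1, ?_⟩⟩
  intro i j
  obtain ⟨r, hr⟩ := h3 j i
  exact ⟨r, by rw [add_comm]; exact hr⟩
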